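import Pool.Agent.BIP.M_CMP
import Pool.Agent.BIP.M_DRW
import Pool.Agent.BIP.M_GSL
import Pool.Agent.BIP.M_IND
import Pool.Agent.BIP.M_LAB
import Pool.Agent.BIP.M_QUO
import Pool.Agent.BIP.M_RAD
import Pool.Agent.BIP.M_RNK
import Pool.Agent.BIP.M_SEL
import Pool.Agent.BIP.M_TNG
import Pool.Agent.BIP.M_UNI

/-!
# Adjacent crossings can be removed from drawings of bipartite graphs, on every surface

Let `G` be a finite graph drawn on a closed surface so that independent edges never meet, while
adjacent edges may cross arbitrarily.  If `G` is bipartite, then `G` embeds in the same surface.  More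
generally this holds if, for some labelling of the points by common ends of the edges through them,
the tangled edges form a bipartite graph, or the floating points have a 2-colouring such that
consecutive floating points of an edge have the same colour if and only if they have the same
label.
-/

namespace Pool.Agent.Results.MP_c6bc3d_co.BipartiteAllSurfaces

open Pool.Agent.Lib_helper38.Adj

theorem result {Φ W : Type} [Finite Φ] [Finite W] (M : FMap Φ) (hM : M.Conn)
    (G : SimpleGraph W) (D : Drawing G M) (hD : D.indep = ∅)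
    (h : G.Colorable 2 ∨
      (∃ l, D.IsLabel l ∧ ∃ c : W → Bool, ∀ {u w : W} (h : G.Adj u w), D.Tangled l h → c u ≠ c w) ∨
      (∃ l, D.IsLabel l ∧ ∃ col : M.Vert → Bool, ∀ p q, D.Cons p q → ¬ D.Grounded l p →
        ¬ D.Grounded l q → (col p = col q ↔ l p = l q))) :
    ∃ N : FMap Φ, N.Conn ∧ N.chi = M.chi ∧ (N.Orientable ↔ M.Orientable) ∧
      ∃ E : Drawing G N, Pool.Agent.HE.IsEmb E :=
  Pool.Agent.BIP.final_of Pool.Agent.BIP.t_RAD Pool.Agent.BIP.t_SEL Pool.Agent.BIP.t_CMP
    Pool.Agent.BIP.t_RNK Pool.Agent.BIP.t_GSL Pool.Agent.BIP.t_UNI Pool.Agent.BIP.t_QUO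
    Pool.Agent.BIP.t_IND Pool.Agent.BIP.t_LAB Pool.Agent.BIP.t_TNG Pool.Agent.BIP.t_DRW
    Φ W M hM G D hD h

end Pool.Agent.Results.MP_c6bc3d_co.BipartiteAllSurfaces
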