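import Pool.Agent.Lib_helper38.Adj.Drawing
import Pool.Agent.Lib_helper38.Adj.Girth2

/-!
# Euler's bound for drawings with independent crossings removed

Let `G` be a finite simple graph with `n` vertices all of whose cycles have length at least
`g ≥ 3`, where `2 n ≥ g + 2`. If `G` is drawn on a closed surface of Euler characteristic `χ`
(orientable or not) so that independent edges meet in `k` points only, while adjacent edges may
cross in an arbitrary manner, then `(g - 2) |E(G)| ≤ g (n - χ) + (g - 2) k`.
-/

namespace Pool.Agent.Results.MP_c6bc3d_co.EulerBound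

open Pool.Agent.Lib_helper38.Adj

theorem result {Φ : Type} [Finite Φ] (M : FMap Φ) (hM : M.Conn) {W : Type} [Finite W]
    (G : SimpleGraph W) (D : Drawing G M) (g : ℕ) (hg : 3 ≤ g)
    (hgirth : ∀ (v : W) (c : G.Walk v v), c.IsCycle → g ≤ c.length)
    (hn : g + 2 ≤ 2 * Nat.card W) :
    ((g : ℤ) - 2) * Nat.card G.edgeSet ≤
      g * (Nat.card W - M.chi) + (g - 2) * D.indep.ncard := by
  classical
  have := Fintype.ofFinite Φ
  have hW : Nonempty W := by
    by_contra h
    rw [not_nonempty_iff] at h
    rw [Nat.card_of_isEmpty] at hn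
    omega
  obtain ⟨G', L, hL, hle, hcard⟩ := D.exists_lmap hM
  have hg' : GirthGe G' g := by
    intro v c hc
    have h1 := hgirth v (c.mapLe hle) (hc.mapLe hle)
    rwa [SimpleGraph.Walk.length_mapLe] at h1
  have hc : L.Conn := by rw [hL]; exact hM
  have h1 := L.girth_conn hc hg hg' hn
  rw [hL, M.chi4_eq] at h1
  have hcard' : (Nat.card G.edgeSet : ℤ) ≤ Nat.card G'.edgeSet + D.indep.ncard := by
    exact_mod_cast hcard
  have hg3 : (3 : ℤ) ≤ g := by exact_mod_cast hg
  have h2 : ((g : ℤ) - 2) * Nat.card G.edgeSet ≤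
      (g - 2) * (Nat.card G'.edgeSet + D.indep.ncard) :=
    mul_le_mul_of_nonneg_left hcard' (by linarith)
  nlinarith [h1, h2]

end Pool.Agent.Results.MP_c6bc3d_co.EulerBound
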