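import Pool.Agent.HE.Contract
import Pool.Agent.HE.Cuts

/-!
# Drawings with adjacent crossings only, every crossing on a proper half of one of its edges

Let `G` be a finite graph drawn on a closed surface so that independent edges never meet, while
adjacent edges may cross. Suppose that every edge can be cut into two halves such that every crossing
of two edges with the common end `y` is on the half at `y` of one of them. Then `G` embeds in the same
surface. The condition holds, for instance, if every edge has at most two crossing points, or if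
every set `X` of crossing points is on at least `|X|` edges, or if `G` has an orientation in which
edges with the same head do not cross.
-/

namespace Pool.Agent.Results.MP_c6bc3d_co.HalfEdge

open Pool.Agent.Lib_helper38.Adj

theorem result {Φ W : Type} [Finite Φ] [Finite W] (M : FMap Φ) (hM : M.Conn)
    (G : SimpleGraph W) (D : Drawing G M) (hD : D.indep = ∅)
    (h : (∃ C : D.Cut, C.Half) ∨
      (∀ e ∈ G.edgeSet, {p ∈ D.cross | e ∈ D.through p}.ncard ≤ 2) ∨
      (∀ X : Finset M.Vert, (X : Set M.Vert) ⊆ D.cross →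
        X.card ≤ (⋃ p ∈ X, D.through p).ncard) ∨
      (∃ η : Sym2 W → W, (∀ e ∈ G.edgeSet, η e ∈ e) ∧ ∀ p ∈ D.cross, ∀ e ∈ D.through p,
        ∀ f ∈ D.through p, e ≠ f → η e ≠ η f)) :
    ∃ N : FMap Φ, N.Conn ∧ N.chi = M.chi ∧ (N.Orientable ↔ M.Orientable) ∧
      ∃ E : Drawing G N, E.cross = ∅ := by
  have hC : ∃ C : D.Cut, C.Half := by
    rcases h with h | h | h | ⟨η, h1, h2⟩
    · exact h
    · exact HEX.exists_half_of_two D h
    · exact HEX.exists_half_of_hall D h
    · exact HEX.exists_half_of_orient D η h1 h2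
  obtain ⟨C, hC⟩ := hC
  obtain ⟨T, h1, h2, h3, h4⟩ := C.exists_minor hD hC
  obtain ⟨N, g1, g2, g3, E, hE⟩ := Pool.Agent.HE.minor_embeds M hM G T (fun w => ⟨_, h1 w⟩)
    (fun w p q => (h2 w p.1 p.2 (h1 w)).symm.trans (h2 w q.1 q.2 (h1 w)))
    (fun u w huw => Set.disjoint_left.2 fun p hp hq => huw (h3 u w p hp hq)) h4
  refine ⟨N, g1, g2, g3, E, ?_⟩
  rw [Set.eq_empty_iff_forall_notMem]
  rintro p ⟨hp, e, ⟨u, w, h, rfl, he⟩, f, ⟨u', w', h', rfl, hf⟩, hne⟩
  obtain ⟨z, hz⟩ := hE h h' hne p he hf
  exact hp z hz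

end Pool.Agent.Results.MP_c6bc3d_co.HalfEdge
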