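import Pool.Agent.Lib_helper38.Adj.Drawing
import Pool.Agent.Lib_helper38.Adj.Girth2
import Pool.Agent.Lib_helper38.Adj.K7Main

/-!
# Drawings of the complete graph on seven vertices without independent crossings

If `K₇` is drawn on a connected closed surface of Euler characteristic at least `0` so that no two
independent edges meet, then the surface is the torus. In particular `K₇` has no such drawing
on the Klein bottle.
-/

namespace Pool.Agent.Results.MP_c6bc3d_co.K7Torus

open Pool.Agent.Lib_helper38.Adj

theorem result {Φ : Type} [Finite Φ] (M : FMap Φ) (hM : M.Conn) (hχ : 0 ≤ M.chi)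
    (D : Drawing (⊤ : SimpleGraph (Fin 7)) M) (hD : D.indep = ∅) :
    M.chi = 0 ∧ M.Orientable := by
  classical
  refine ⟨le_antisymm ?_ hχ, K7_orientable M hM hχ ⊤ D hD id (fun i j h => h)⟩
  have := Fintype.ofFinite Φ
  obtain ⟨G', L, hL, hle, hcard⟩ := D.exists_lmap hM
  have hg' : GirthGe G' 3 := fun v c hc => hc.three_le_length
  have hc : L.Conn := by rw [hL]; exact hM
  have h1 := L.girth_conn hc le_rfl hg' (by rw [Nat.card_eq_fintype_card, Fintype.card_fin]; norm_num)
  rw [hL, M.chi4_eq] at h1
  rw [hD, Set.ncard_empty, add_zero] at hcard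
  have h21 : Nat.card (⊤ : SimpleGraph (Fin 7)).edgeSet = 21 := by
    rw [Nat.card_eq_fintype_card, ← SimpleGraph.edgeFinset_card]
    rw [SimpleGraph.card_edgeFinset_top_eq_card_choose_two]
    simp
    rfl
  rw [h21] at hcard
  have h7 : Nat.card (Fin 7) = 7 := by simp
  rw [h7] at h1
  have hcard' : (21 : ℤ) ≤ Nat.card G'.edgeSet := by exact_mod_cast hcard
  push_cast at h1
  linarith

end Pool.Agent.Results.MP_c6bc3d_co.K7Torus
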